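import Pool.Agent.helper53.DC.SpecK

/-! Module K7 (project dc): a wall separating two chambers adjacent to vertices of a component. -/

set_option autoImplicit false

namespace Pool.Agent.helper53.DC

theorem K7_adj (hA4c : A4c_stmt) {B W : Type} [Group W] {M : CoxeterMatrix B}
    (cs : CoxeterSystem M W) (H : Subgroup W) (w w' : Wall cs) (hc : (cw cs).Cross w w')
    (hsym : ∀ u v, (cw cs).Cross u v → (cw cs).Cross v u) {u u' : Wall cs}
    (ha : (TG cs H w w').Adj u u') : (cw cs).Cross u u' := by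
  obtain ⟨_, h, _, h1⟩ := ha
  rcases h1 with ⟨rfl, rfl⟩ | ⟨rfl, rfl⟩
  · exact ((hA4c cs h).1 w w').mpr hc
  · exact ((hA4c cs h).1 w' w).mpr (hsym _ _ hc)

theorem K7 (hA4c : A4c_stmt) (hA6 : A6_stmt) (hA22 : A22_stmt) (hW1 : W1_stmt) : K7_stmt := by
  intro B W _ M cs H w w' hc v x x' hx hx' hsep
  obtain ⟨a1, a2, a3, a4, a5, a6, a7, a8, a9⟩ := hW1 (cw cs) (hA6 cs)
  by_contra hcon
  push Not at hcon
  have hdis : ∀ u ∈ T0 cs H w w', (cw cs).Dis u v := fun u hu => hcon u hu
  have hw : w ∈ T0 cs H w w' := SimpleGraph.Reachable.refl w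
  obtain ⟨b, hb⟩ := a6 w v (hdis w hw)
  have hall : ∀ u ∈ T0 cs H w w', (cw cs).On u v b := by
    intro u hu
    have hu' : Relation.ReflTransGen (TG cs H w w').Adj w u :=
      (SimpleGraph.reachable_iff_reflTransGen w u).mp hu
    induction hu' with
    | refl => exact hb
    | @tail p q h1 h2 ih =>
      have hp : p ∈ T0 cs H w w' := (SimpleGraph.reachable_iff_reflTransGen w p).mpr h1
      obtain ⟨b', hb'⟩ := a6 q v (hdis q hu)
      obtain ⟨_, β, hβ⟩ := ih hp
      obtain ⟨hne, β', hβ'⟩ := id hb'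
      obtain ⟨z, hz, hz'⟩ := K7_adj hA4c cs H w w' hc a2 h2 β β'
      by_cases hbb : b' = b
      · rwa [hbb] at hb'
      · exfalso
        have hbn : b' = !b := by
          revert hbb
          cases b' <;> cases b <;> simp
        have h3 := hβ' hz'
        rw [hbn, (a1 v v b).2.1] at h3
        exact h3 (hβ hz)
  obtain ⟨u, hu, hxu⟩ := hx
  obtain ⟨u', hu', hxu'⟩ := hx'
  have h1 : x ∈ (cw cs).hs v b := (hA22 cs u v b (hdis u hu).1).mp (hall u hu) hxu
  have h2 : x' ∈ (cw cs).hs v b := (hA22 cs u' v b (hdis u' hu').1).mp (hall u' hu') hxu'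
  have h3 : (x ∈ (cw cs).H v ↔ b = true) := h1
  have h4 : (x' ∈ (cw cs).H v ↔ b = true) := h2
  exact hsep (h3.trans h4.symm)

end Pool.Agent.helper53.DC
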