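import Pool.Agent.helper53.DC.SpecR

/-! Module R4 (project dc): positivity of roots. -/

set_option autoImplicit false

namespace Pool.Agent.helper53.DC

theorem R4 (h2 : R2_stmt) (h3 : R3_stmt) : R4_stmt := by
  intro B W _ _ _ M cs φ hφ w
  induction hn : cs.length w using Nat.strong_induction_on generalizing w with
  | _ N ih =>
    intro i hi k
    by_cases hw : w = 1
    · rw [hw, map_one, Matrix.one_mulVec]
      by_cases hk : k = i
      · rw [hk, Pi.single_eq_same]
        exact zero_le_one
      · rw [Pi.single_eq_of_ne hk]
    · obtain ⟨j, hj⟩ := cs.exists_rightDescent_of_ne_one hw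
      have hj' : cs.length (w * cs.simple j) < cs.length w := hj
      have hij : i ≠ j := by
        rintro rfl
        omega
      obtain ⟨v, n, hn0, hwv, hlen, hvi, hvj, hm⟩ := h3 cs w i j hij (by omega) hj'
      obtain ⟨a, b, ha, hb, hab⟩ := h2 cs φ hφ i j n hij hm
      have e : (φ w).mulVec (Pi.single i 1) k =
          a * (φ v).mulVec (Pi.single i 1) k + b * (φ v).mulVec (Pi.single j 1) k := by
        rw [hwv, map_mul, ← Matrix.mulVec_mulVec, hab, Matrix.mulVec_add, Matrix.mulVec_smul,
          Matrix.mulVec_smul]
        rfl
      rw [e]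
      have p1 := ih (cs.length v) (by omega) v rfl i hvi k
      have p2 := ih (cs.length v) (by omega) v rfl j hvj k
      positivity

end Pool.Agent.helper53.DC
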