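import Pool.Agent.helper53.DC.SpecA

/-! Modules W2 and W3 (project dc): order facts on abstract walls. -/

set_option autoImplicit false

namespace Pool.Agent.helper53.DC

theorem W2 (_h1 : W1_stmt) : W2_stmt := by
  intro X Wl S _ v u u' c hb hc hc' d e
  obtain ⟨b, ⟨_, b1, h1⟩, ⟨_, b2, h2⟩⟩ := hb
  by_cases he : e = b
  · subst he
    obtain ⟨x, hx, hx'⟩ := hc d b1
    exact ⟨x, hx, h1 hx'⟩
  · have he' : e = !b := by
      revert he
      cases e <;> cases b <;> simp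
    rw [he']
    obtain ⟨x, hx, hx'⟩ := hc' d b2
    exact ⟨x, hx, h2 hx'⟩

theorem W3 (hW : W1_stmt) : W3_stmt := by
  intro X Wl S hS
  obtain ⟨a1, a2, a3, a4, a5, a6, a7, a8, a9⟩ := hW S hS
  have hcompl : ∀ v b x, x ∈ S.hs v b → x ∈ S.hs v (!b) → False := by
    intro v b x hx hx'
    rw [(a1 v v b).2.1] at hx'
    exact hx' hx
  -- (1)
  have p1 : ∀ v u u', S.Btw v u u' → S.Btw v u' u := by
    rintro v u u' ⟨b, h, h'⟩
    exact ⟨!b, h', by rwa [Bool.not_not]⟩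
  -- (2)
  have p2 : ∀ v u u', S.Btw v u u' → S.Dis u u' ∧ S.Dis u v ∧ S.Dis u' v := by
    rintro v u u' ⟨b, h, h'⟩
    refine ⟨⟨?_, ?_⟩, a7 _ _ _ h, a7 _ _ _ h'⟩
    · rintro rfl
      have := a8 _ _ _ _ h h'
      revert this
      cases b <;> simp
    · intro hc
      obtain ⟨_, b1, h1⟩ := h
      obtain ⟨_, b2, h2⟩ := h'
      obtain ⟨x, hx, hx'⟩ := hc b1 b2
      exact hcompl v b x (h1 hx) (h2 hx')
  -- (3)
  have p3 : ∀ v u v' b, S.Btw v u v' → S.On v v' b → S.On u v' b := by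
    intro v u v' b hb hon
    have hd := (p2 v u v' hb).1
    obtain ⟨c, h, h'⟩ := hb
    obtain ⟨b', g1, g2, _⟩ := a9 _ _ _ hon
    have e := a8 _ _ _ _ g1 h'
    subst e
    rw [Bool.not_not] at g2
    obtain ⟨_, d, hd'⟩ := h
    exact ⟨hd.1, d, hd'.trans g2.subset⟩
  -- (4)
  have p4 : ∀ v v' u u', S.Btw v u v' → S.Btw v' u u' → S.Btw v u u' ∧ S.Btw v' v u' := by
    intro v v' u u' h h'
    have hd := (p2 v u v' h).2.2
    obtain ⟨c, h1, h2⟩ := id h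
    obtain ⟨d, g1, g2⟩ := id h'
    obtain ⟨e, he⟩ := a6 _ _ (a4 _ _ hd)
    have hu := p3 v u v' e h he
    have hed := a8 _ _ _ _ hu g1
    subst hed
    have k1 : S.Btw v' v u' := ⟨e, he, g2⟩
    exact ⟨⟨c, h1, p3 v' u' v (!c) (p1 _ _ _ k1) h2⟩, k1⟩
  -- (5)
  have p5 : ∀ v v' u u', S.Btw v u u' → S.Btw v' v u' → S.Btw v' u u' ∧ S.Btw v u v' := by
    intro v v' u u' h h'
    obtain ⟨k1, k2⟩ := p4 v' v u' u (p1 _ _ _ h') (p1 _ _ _ h)
    exact ⟨p1 _ _ _ k1, p1 _ _ _ k2⟩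
  -- (6)
  have p6 : ∀ c u v b, S.Cross c u → S.On u v b → c ≠ v → ¬ S.Cross c v → S.On c v b := by
    intro c u v b hc hon hne hnc
    obtain ⟨e, he⟩ := a6 c v ⟨hne, hnc⟩
    by_cases heb : e = b
    · rwa [heb] at he
    · exfalso
      have he' : e = !b := by
        revert heb
        cases e <;> cases b <;> simp
      obtain ⟨_, g, hg⟩ := he
      obtain ⟨_, d, hd⟩ := hon
      obtain ⟨x, hx, hx'⟩ := hc g d
      rw [he'] at hg
      exact hcompl v b x (hd hx') (hg hx)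
  -- (7)
  have p7 : ∀ v v' u u', S.Btw v u u' → S.Btw v' u u' → v ≠ v' → ¬ S.Cross v v' →
      (S.Btw v u v' ∧ S.Btw v' v u') ∨ (S.Btw v' u v ∧ S.Btw v v' u') := by
    intro v v' u u' h h' hne hnc
    obtain ⟨e, he⟩ := a6 v v' ⟨hne, hnc⟩
    obtain ⟨d, g1, g2⟩ := id h'
    by_cases hed : e = d
    · subst hed
      have k1 : S.Btw v' v u' := ⟨e, he, g2⟩
      exact Or.inl ⟨(p5 v v' u u' h k1).2, k1⟩
    · have he' : e = !d := by
        revert hed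
        cases e <;> cases d <;> simp
      rw [he'] at he
      have k1 : S.Btw v' u v := ⟨d, g1, he⟩
      exact Or.inr ⟨k1, (p4 v' v u u' k1 h).2⟩
  -- (8)
  have p8 : ∀ m u u', S.SepCh m u u' → S.SepCh m u' u := by
    rintro m u u' ⟨v, h1, h2⟩
    refine ⟨fun i => v (m - 1 - i), fun i hi => p1 _ _ _ (h1 _ (by omega)), ?_⟩
    intro i j hij hj
    obtain ⟨k1, k2⟩ := h2 (m - 1 - j) (m - 1 - i) (by omega) (by omega)
    exact ⟨p1 _ _ _ k2, p1 _ _ _ k1⟩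
  refine ⟨p1, p2, p3, p4, p5, p6, p7, p8, ?_, ?_, ?_⟩
  · rintro m m' u u' hm ⟨v, h1, h2⟩
    exact ⟨v, fun i hi => h1 i (by omega), fun i j hij hj => h2 i j hij (by omega)⟩
  · intro m u u' v hv i j hi hj hij
    rcases Nat.lt_or_gt_of_ne hij with h | h
    · exact a4 _ _ (p2 _ _ _ (hv.2 i j h hj).1).2.2
    · exact (p2 _ _ _ (hv.2 j i h hi).1).2.2
  · intro u u'
    exact ⟨fun _ => u, fun i hi => absurd hi (Nat.not_lt_zero i), fun i j _ hj =>
      absurd hj (Nat.not_lt_zero j)⟩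

end Pool.Agent.helper53.DC
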