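import Pool.Agent.helper58.DC.Spec1

/-!
# dq:IRU uniqueness of the factors of a product of irreducible characters
-/

set_option autoImplicit false

namespace Pool.Agent.helper79.DC

open Pool.Agent.helper58.DC

theorem IRU (hIRF : IRF_stmt) : IRU_stmt := by
  classical
  intro T _ H _ _ χ φ hχ hφ h
  funext t0
  have hA : ∀ ξ : ∀ t, H t → ℂ, (∀ t, ξ t ∈ Irr (H t)) →
      ∃ a : ℕ, 0 < a ∧ ∏ t ∈ Finset.univ.erase t0, ξ t 1 = (a : ℂ) := by
    intro ξ hξ
    choose n hn hn' using fun t => ((hIRF (H t)).2 (ξ t) (hξ t)).1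
    refine ⟨∏ t ∈ Finset.univ.erase t0, n t, Finset.prod_pos fun t _ => hn t, ?_⟩
    rw [Nat.cast_prod]
    exact Finset.prod_congr rfl fun t _ => hn' t
  have hP : ∀ (ξ : ∀ t, H t → ℂ) (g : H t0),
      ∏ t, ξ t ((Function.update 1 t0 g : ∀ t, H t) t) =
        ξ t0 g * ∏ t ∈ Finset.univ.erase t0, ξ t 1 := by
    intro ξ g
    rw [← Finset.mul_prod_erase _ _ (Finset.mem_univ t0), Function.update_self]
    congr 1
    refine Finset.prod_congr rfl fun t ht => ?_
    rw [Function.update_of_ne (Finset.ne_of_mem_erase ht), Pi.one_apply]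
  obtain ⟨a, ha, hae⟩ := hA χ hχ
  obtain ⟨b, hb, hbe⟩ := hA φ hφ
  have hmain : ∀ g : H t0, χ t0 g * a = φ t0 g * b := by
    intro g
    have h1 := h (Function.update 1 t0 g)
    rw [hP, hP, hae, hbe] at h1
    exact h1
  have hn1 := ((hIRF (H t0)).2 (χ t0) (hχ t0)).2.2
  have hn2 := ((hIRF (H t0)).2 (φ t0) (hφ t0)).2.2
  have hS : ∀ (f : H t0 → ℂ) (c : ℂ), (∑ᶠ g : H t0, f g * f g⁻¹) * (c * c) =
      ∑ᶠ g : H t0, (f g * c) * (f g⁻¹ * c) := by
    intro f c
    rw [finsum_mul]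
    exact finsum_congr fun g => by ring
  have h1 : (Nat.card (H t0) : ℂ) * (a * a) = Nat.card (H t0) * (b * b) := by
    rw [← hn1, hS, hn1, ← hn2, hS]
    exact finsum_congr fun g => by rw [hmain, hmain]
  have hc : (Nat.card (H t0) : ℂ) ≠ 0 := Nat.cast_ne_zero.2 Nat.card_pos.ne'
  have h2 : (a : ℂ) * a = b * b := mul_left_cancel₀ hc h1
  have h3 : a * a = b * b := by exact_mod_cast h2
  have h4 : a = b := Nat.mul_self_inj.1 h3
  funext g
  have h5 := hmain g
  rw [← h4] at h5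
  exact mul_right_cancel₀ (Nat.cast_ne_zero.2 ha.ne') h5

end Pool.Agent.helper79.DC
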