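import Pool.Agent.helper58.DC.Spec2

/-!
# dq:WN the number of elements with stabiliser exactly the base group
-/

set_option autoImplicit false

namespace Pool.Agent.helper79.DC

open Pool.Agent.helper58.DC

theorem WN_mem {A : Type} [Group A] {n : ℕ} (V : Subgroup (Equiv.Perm (Fin n))) (x : Wr A n) :
    x ∈ wrU A V ↔ x.σ ∈ V := Iff.rfl

theorem WN_bij (A : Type) [Group A] (n : ℕ) (V : Subgroup (Equiv.Perm (Fin n))) :
    Function.Bijective (fun V' : {V' : Subgroup (Equiv.Perm (Fin n)) // V ≤ V'} =>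
      (⟨wrU A V'.1, fun _ hx => V'.2 hx⟩ : {V'' : Subgroup (Wr A n) // wrU A V ≤ V''})) := by
  constructor
  · rintro ⟨V1, h1⟩ ⟨V2, h2⟩ h
    have h3 : wrU A V1 = wrU A V2 := congrArg Subtype.val h
    refine Subtype.ext (Subgroup.ext fun σ => ?_)
    have h4 : (⟨σ, 1⟩ : Wr A n) ∈ wrU A V1 ↔ (⟨σ, 1⟩ : Wr A n) ∈ wrU A V2 := by rw [h3]
    exact h4
  · rintro ⟨V'', h⟩
    have hb : ∀ a : Fin n → A, (⟨1, a⟩ : Wr A n) ∈ V'' := fun a => h V.one_mem
    have hm : ∀ x : Wr A n, x ∈ V'' ↔ (⟨x.σ, 1⟩ : Wr A n) ∈ V'' := by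
      intro x
      have hx : x = ⟨x.σ, 1⟩ * ⟨1, x.a⟩ := by
        ext i
        · simp
        · simp
      constructor
      · intro h1
        rw [hx] at h1
        exact (V''.mul_mem_cancel_right (hb _)).1 h1
      · intro h1
        rw [hx]
        exact V''.mul_mem h1 (hb _)
    let P : Wr A n →* Equiv.Perm (Fin n) :=
      { toFun := fun x => x.σ
        map_one' := rfl
        map_mul' := fun _ _ => rfl }
    have hP : ∀ σ, σ ∈ V''.map P ↔ (⟨σ, 1⟩ : Wr A n) ∈ V'' := by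
      intro σ
      rw [Subgroup.mem_map]
      constructor
      · rintro ⟨x, hx, rfl⟩
        exact (hm x).1 hx
      · intro h1
        exact ⟨_, h1, rfl⟩
    refine ⟨⟨V''.map P, fun σ hσ => (hP σ).2 (h hσ)⟩, ?_⟩
    refine Subtype.ext (Subgroup.ext fun x => ?_)
    show x.σ ∈ V''.map P ↔ x ∈ V''
    rw [hP, ← hm]

theorem WN (hMB : MB_stmt) (hWF : WF_stmt) (hMP : MP_stmt) : WN_stmt := by
  intro A _ _ S n D hD
  have hfin : Finite (Wr A n) :=
    Finite.of_injective (fun x : Wr A n => (x.σ, x.a)) fun x y h => by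
      rw [Prod.mk.injEq] at h
      exact Wr.ext h.1 h.2
  refine hMP n (fun V => (pathS S (wrC A n)).num ((n : ℤ) * D) (wrU A V)) (S.fix D ⊤) fun V => ?_
  rw [← hWF A S n D V hD, hMB (Wr A n) (pathS S (wrC A n)) ((n : ℤ) * D) (wrU A V)]
  exact finsum_eq_of_bijective _ (WN_bij A n V) fun _ => rfl

end Pool.Agent.helper79.DC
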