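import Pool.Agent.helper58.DC.Spec1

/-!
# dq:SN the stabiliser of a chain is its normaliser
-/

set_option autoImplicit false

namespace Pool.Agent.helper79.DC

open Pool.Agent.helper58.DC

theorem SN : SN_stmt := by
  classical
  intro G _ _ C hC g
  have hm : ∀ P : Subgroup G, g ∈ Subgroup.normalizer (P : Set G) ↔
      P.map (MulAut.conj g).toMonoidHom = P := fun P => Subgroup.mem_normalizer_iff_map_conj_eq
  have hn : g ∈ nrm C ↔ ∀ P ∈ C, P.map (MulAut.conj g).toMonoidHom = P := by
    unfold nrm
    simp only [Subgroup.mem_iInf, hm]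
  rw [hn]
  constructor
  · intro h P hP
    have h1 : P.map (MulAut.conj g).toMonoidHom ∈ C := by
      have h2 : P.map (MulAut.conj g).toMonoidHom ∈ chainMap (MulAut.conj g) C := by
        unfold chainMap
        exact Finset.mem_image_of_mem _ hP
      rwa [h] at h2
    have hcard : Nat.card (P.map (MulAut.conj g).toMonoidHom) = Nat.card P :=
      Nat.card_congr (P.equivMapOfInjective (MulAut.conj g).toMonoidHom
        (MulAut.conj g).injective).symm.toEquiv
    rcases hC.total h1 hP with h2 | h2
    · exact Subgroup.eq_of_le_of_card_ge h2 hcard.ge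
    · exact (Subgroup.eq_of_le_of_card_ge h2 hcard.le).symm
  · intro h
    unfold chainMap
    ext Q
    rw [Finset.mem_image]
    constructor
    · rintro ⟨P, hP, rfl⟩
      rwa [h P hP]
    · intro hQ
      exact ⟨Q, hQ, h Q hQ⟩

end Pool.Agent.helper79.DC
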